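import Pool.Agent.Lib.MP_092512_nt.QC.N2
import Pool.Agent.Lib.DN.Pnt

/-!
# MP_2472ab_nt: primes `p ≤ X` with `p + 2^k` prime, uniformly in `k`
-/

set_option autoImplicit false

open Finset

namespace Pool.Agent.Lib.MP_2472ab_nt

open Pool.Agent.Lib.MP_092512_nt.QC
open Pool.Agent.Lib.MP_092512_nt.KSets (G)

theorem prim7 : primorial 7 = 210 := by decide

theorem wf7 : wf 7 = 35 / 8 := by
  unfold wf
  have h : Nat.totient 210 = 48 := by decide
  rw [prim7, h]
  norm_num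

theorem G7 (k : ℕ) : G 7 (2 ^ k) = 1 := by
  unfold G
  apply prod_eq_one
  intro p hp
  rw [mem_filter] at hp
  have hp1 := Nat.prime_of_mem_primeFactors hp.1
  have hp2 := Nat.dvd_of_mem_primeFactors hp.1
  have hp3 := (Nat.prime_dvd_prime_iff_eq hp1 Nat.prime_two).1 (hp1.dvd_of_dvd_pow hp2)
  omega

/-- the residues of the powers of two -/
theorem pow_res (k : ℕ) (hk : 1 ≤ k) :
    2 ^ k % 210 ∈ ({2, 4, 8, 16, 32, 64, 128, 46, 92, 184, 158, 106} : Finset ℕ) := by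
  induction k, hk using Nat.le_induction with
  | base => decide
  | succ k hk ih =>
    rw [pow_succ, Nat.mul_mod]
    have : ∀ r ∈ ({2, 4, 8, 16, 32, 64, 128, 46, 92, 184, 158, 106} : Finset ℕ),
        r * (2 % 210) % 210 ∈ ({2, 4, 8, 16, 32, 64, 128, 46, 92, 184, 158, 106} : Finset ℕ) := by
      decide
    exact this _ ih

theorem gcd_mod (x : ℕ) : Nat.gcd (x % 210) 210 = Nat.gcd x 210 :=
  (Nat.gcd_rec 210 x).symm.trans (Nat.gcd_comm _ _)

/-- the classes mod 210 -/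
def good (h : ℕ) : Finset ℕ :=
  (range 210).filter (fun a => a.Coprime 210 ∧ (a + h).Coprime 210)

theorem good_mod (h : ℕ) : good h = good (h % 210) := by
  unfold good
  apply filter_congr
  intro a _
  have h1 : (a + h).Coprime 210 ↔ (a + h % 210).Coprime 210 := by
    unfold Nat.Coprime
    rw [← gcd_mod (a + h), ← gcd_mod (a + h % 210), Nat.add_mod, Nat.add_mod a (h % 210), Nat.mod_mod]
  rw [h1]

theorem good_card (k : ℕ) (hk : 1 ≤ k) : (good (2 ^ k)).card = 15 := by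
  rw [good_mod]
  have h1 := pow_res k hk
  have h2 : ∀ r ∈ ({2, 4, 8, 16, 32, 64, 128, 46, 92, 184, 158, 106} : Finset ℕ),
      (good r).card = 15 := by
    decide +kernel
  exact h2 _ h1

/-- the primes `p ≤ X` with `p + h` prime -/
def TP (X h : ℕ) : Finset ℕ := (Icc 1 X).filter (fun p => p.Prime ∧ (p + h).Prime)

/-- the same in a residue class -/
def TPa (X h a : ℕ) : Finset ℕ :=
  (Icc 1 X).filter (fun p => p.Prime ∧ p ≡ a [MOD 210] ∧ (p + h).Prime)

theorem cop_of_prime {p : ℕ} (hp : p.Prime) (h7 : 7 < p) : p.Coprime 210 := by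
  rw [Nat.Prime.coprime_iff_not_dvd hp]
  intro hd
  have h1 : p ∈ Nat.primeFactors 210 := Nat.mem_primeFactors.2 ⟨hp, hd, by norm_num⟩
  have h2 : Nat.primeFactors 210 = {2, 3, 5, 7} := by decide +kernel
  rw [h2] at h1
  simp only [mem_insert, mem_singleton] at h1
  omega

theorem TP_card_le (X h : ℕ) : (TP X h).card ≤ 7 + ∑ a ∈ good h, (TPa X h a).card := by
  classical
  have h1 : TP X h ⊆ Icc 1 7 ∪ (good h).biUnion (fun a => TPa X h a) := by
    intro p hp
    unfold TP at hp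
    rw [mem_filter, mem_Icc] at hp
    obtain ⟨⟨h1, h2⟩, h3, h4⟩ := hp
    rw [mem_union]
    by_cases h7 : p ≤ 7
    · left; rw [mem_Icc]; exact ⟨h1, h7⟩
    · right
      push Not at h7
      rw [mem_biUnion]
      refine ⟨p % 210, ?_, ?_⟩
      · unfold good
        rw [mem_filter, mem_range]
        refine ⟨Nat.mod_lt _ (by norm_num), ?_, ?_⟩
        · have := cop_of_prime h3 h7
          unfold Nat.Coprime at this ⊢
          rw [gcd_mod]
          exact this
        · have := cop_of_prime h4 (by omega)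
          unfold Nat.Coprime at this ⊢
          have e2 : ((p % 210 + h) % 210) = (p + h) % 210 := by
            rw [Nat.add_mod, Nat.mod_mod, ← Nat.add_mod]
          rw [← gcd_mod, e2, gcd_mod]
          exact this
      · unfold TPa
        rw [mem_filter, mem_Icc]
        exact ⟨⟨h1, h2⟩, h3, (Nat.mod_modEq p 210).symm, h4⟩
  refine (card_le_card h1).trans ((card_union_le _ _).trans ?_)
  rw [Nat.card_Icc]
  exact Nat.add_le_add_left card_biUnion_le _

/-- uniform upper bound for the number of primes `p ≤ X` with `p + 2^k` prime -/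
theorem TP_le : ∃ X0 : ℕ, 3 ≤ X0 ∧ ∀ X : ℕ, X0 ≤ X → ∀ k : ℕ, 1 ≤ k →
    ((TP X (2 ^ k)).card : ℝ) ≤ 5.475 * X / (Real.log X) ^ 2 := by
  set δ : ℝ := 1 / 100000 with hδ
  have hδ0 : 0 < δ := by rw [hδ]; norm_num
  obtain ⟨X1, hX1⟩ := n2_theta 7 (by norm_num) δ δ hδ0 (by rw [hδ]; norm_num) hδ0
  obtain ⟨R0, hR0⟩ := n2_main 7 (by norm_num) δ hδ0
  obtain ⟨X2, hX2⟩ := n2_logR δ hδ0 (by rw [hδ]; norm_num)
  have hfl : Filter.Tendsto (fun X : ℕ => ⌊(X : ℝ) ^ (1 / 4 - δ)⌋₊) Filter.atTop Filter.atTop :=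
    tendsto_nat_floor_atTop.comp
      ((tendsto_rpow_atTop (by rw [hδ]; norm_num : 0 < 1 / 4 - δ)).comp tendsto_natCast_atTop_atTop)
  have hlog : Filter.Tendsto (fun x : ℕ => Real.log x) Filter.atTop Filter.atTop :=
    Real.tendsto_log_atTop.comp tendsto_natCast_atTop_atTop
  have hsm : ∀ᶠ X : ℕ in Filter.atTop, 40 * (X : ℝ) ^ (1 - δ) * (Real.log X) ^ 2 ≤ 0.001 * X := by
    have h1 : (fun x : ℝ => Real.log x ^ (2 : ℝ)) =o[Filter.atTop] fun x => x ^ δ :=
      isLittleO_log_rpow_rpow_atTop 2 hδ0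
    have h2 := tendsto_natCast_atTop_atTop (R := ℝ) |>.eventually (h1.def (c := 0.001 / 40) (by norm_num))
    filter_upwards [h2, Filter.eventually_ge_atTop 1] with X hX hX1
    have hXr : (1 : ℝ) ≤ X := by exact_mod_cast hX1
    have h4 : Real.log (X : ℝ) ^ (2 : ℝ) = Real.log X ^ (2 : ℕ) := by
      rw [← Real.rpow_natCast]; norm_num
    rw [h4, Real.norm_of_nonneg (by positivity), Real.norm_of_nonneg (by positivity)] at hX
    have h5 : (X : ℝ) ^ (1 - δ) * (X : ℝ) ^ δ = X := by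
      rw [← Real.rpow_add (by linarith)]; simp
    have h6 : 0 ≤ (X : ℝ) ^ (1 - δ) := by positivity
    calc 40 * (X : ℝ) ^ (1 - δ) * (Real.log X) ^ 2
        ≤ 40 * (X : ℝ) ^ (1 - δ) * (0.001 / 40 * (X : ℝ) ^ δ) :=
          mul_le_mul_of_nonneg_left hX (by positivity)
      _ = 0.001 * ((X : ℝ) ^ (1 - δ) * (X : ℝ) ^ δ) := by ring
      _ = 0.001 * X := by rw [h5]
  obtain ⟨X3, hX3⟩ := Filter.eventually_atTop.mp
    (((hfl.eventually (Filter.eventually_ge_atTop (max R0 2))).and hsm).and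
      (hlog.eventually (Filter.eventually_ge_atTop 1000)))
  refine ⟨max (max X1 X2) (max X3 3), le_trans (le_max_right _ _) (le_max_right _ _), ?_⟩
  intro X hX k hk
  have hXX1 : X1 ≤ X := le_trans (le_trans (le_max_left _ _) (le_max_left _ _)) hX
  have hXX2 : X2 ≤ X := le_trans (le_trans (le_max_right _ _) (le_max_left _ _)) hX
  have hXX3 : X3 ≤ X := le_trans (le_trans (le_max_left _ _) (le_max_right _ _)) hX
  have hX3' : 3 ≤ X := le_trans (le_trans (le_max_right _ _) (le_max_right _ _)) hX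
  obtain ⟨⟨hRm, hs⟩, hL⟩ := hX3 X hXX3
  set R := ⌊(X : ℝ) ^ (1 / 4 - δ)⌋₊ with hR
  set L := Real.log X with hLd
  have hX1r : (1 : ℝ) ≤ X := by exact_mod_cast (by omega : 1 ≤ X)
  have hRR0 : R0 ≤ R := (le_max_left _ _).trans hRm
  have hR2 : 2 ≤ R := (le_max_right _ _).trans hRm
  have hRX : (R : ℝ) ≤ (X : ℝ) ^ (1 / 4 - δ) := Nat.floor_le (by positivity)
  have hlR : (1 / 4 - 2 * δ) * L ≤ Real.log R := hX2 X hXX2
  set T : ℝ := (X : ℝ) ^ (1 - δ) with hT
  have hT1 : 1 ≤ T := Real.one_le_rpow hX1r (by rw [hδ]; norm_num)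
  have hlT : Real.log T = (1 - δ) * L := by rw [hT, Real.log_rpow (by linarith)]
  have hRT : (R : ℝ) ≤ T := hRX.trans (Real.rpow_le_rpow_of_exponent_le hX1r (by rw [hδ]; norm_num))
  have hL0 : 0 < L := by linarith
  have h2k : 1 ≤ 2 ^ k := Nat.one_le_two_pow
  have hma := hR0 R hRR0 (2 ^ k) h2k
  rw [G7, wf7, prim7] at hma
  set S1 := SS R (210 * 2 ^ k) with hS1
  have hS1lb : (8 / 35) * ((1 - δ) * ((1 / 4 - 2 * δ) * L)) ≤ S1 := by
    have h1 : (1 - δ) * ((1 / 4 - 2 * δ) * L) ≤ (1 - δ) * Real.log R :=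
      mul_le_mul_of_nonneg_left hlR (by rw [hδ]; norm_num)
    linarith
  have hS1c : 0.0571 * L ≤ S1 := by
    refine le_trans ?_ hS1lb
    rw [hδ]
    nlinarith
  have hclass : ∀ a ∈ good (2 ^ k), ((TPa X (2 ^ k) a).card : ℝ) ≤
      2 * T + 0.3647 * X / L ^ 2 + 2 * X / L ^ 4 := by
    intro a ha
    unfold good at ha
    rw [mem_filter] at ha
    have hth := hX1 X hXX1 R (by omega) hRX a (2 ^ k) h2k (by rw [prim7]; exact ha.2.1)
      (by rw [prim7]; exact ha.2.2)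
    rw [prim7] at hth
    have hφ : Nat.totient 210 = 48 := by decide
    rw [hφ, ← hS1] at hth
    have hsp := n2_split X 210 a (2 ^ k) R T hT1
    have hS1p : 0 < S1 := by
      have : 0 < 0.0571 * L := by positivity
      linarith
    have h1 : (1 + δ) * X / (((48 : ℕ) : ℝ) * S1) ≤ 0.3647 * X / L ^ 2 * Real.log T := by
      rw [hlT]
      have e1 : 0.3647 * (X : ℝ) / L ^ 2 * ((1 - δ) * L) = 0.3647 * (1 - δ) * X / L := by
        field_simp
      rw [e1, div_le_div_iff₀ (by positivity) hL0]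
      push_cast
      have h2 : (1 + δ) * L ≤ 0.3647 * (1 - δ) * (48 * S1) := by
        have h3 : 0.3647 * (1 - δ) * (48 * ((8 / 35) * ((1 - δ) * ((1 / 4 - 2 * δ) * L)))) ≤
            0.3647 * (1 - δ) * (48 * S1) := by
          apply mul_le_mul_of_nonneg_left _ (by rw [hδ]; norm_num)
          linarith
        refine le_trans ?_ h3
        rw [hδ]
        nlinarith
      have hX0 : (0 : ℝ) ≤ X := by linarith
      nlinarith [mul_le_mul_of_nonneg_left h2 hX0]
    have h2 : (X : ℝ) / L ^ 3 ≤ 2 * X / L ^ 4 * Real.log T := by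
      rw [hlT]
      have e1 : 2 * (X : ℝ) / L ^ 4 * ((1 - δ) * L) = (2 * (1 - δ)) * (X / L ^ 3) := by
        field_simp
      rw [e1]
      have h3 : (0 : ℝ) ≤ X / L ^ 3 := by positivity
      have h4 : (1 : ℝ) ≤ 2 * (1 - δ) := by rw [hδ]; norm_num
      nlinarith
    have hlT0 : 0 < Real.log T := by
      rw [hlT]
      exact mul_pos (by rw [hδ]; norm_num) hL0
    have h3 : ((TPa X (2 ^ k) a).card : ℝ) * Real.log T ≤
        (2 * T + 0.3647 * X / L ^ 2 + 2 * X / L ^ 4) * Real.log T := by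
      have e1 : (TPa X (2 ^ k) a) = (Icc 1 X).filter (fun p => p.Prime ∧ p ≡ a [MOD 210] ∧
          (p + 2 ^ k).Prime) := rfl
      rw [e1]
      have h4 : (T + R) * Real.log T ≤ 2 * T * Real.log T :=
        mul_le_mul_of_nonneg_right (by linarith) hlT0.le
      have h5 : (2 * T + 0.3647 * X / L ^ 2 + 2 * X / L ^ 4) * Real.log T =
          2 * T * Real.log T + (0.3647 * X / L ^ 2 * Real.log T + 2 * X / L ^ 4 * Real.log T) := by
        ring
      rw [h5]
      linarith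
    exact le_of_mul_le_mul_right h3 hlT0
  have hsum : ((TP X (2 ^ k)).card : ℝ) ≤ 7 + 15 * (2 * T + 0.3647 * X / L ^ 2 + 2 * X / L ^ 4) := by
    have h1 := TP_card_le X (2 ^ k)
    have h2 : ((TP X (2 ^ k)).card : ℝ) ≤ 7 + ∑ a ∈ good (2 ^ k), ((TPa X (2 ^ k) a).card : ℝ) := by
      exact_mod_cast h1
    refine h2.trans ?_
    have h3 : ∑ a ∈ good (2 ^ k), ((TPa X (2 ^ k) a).card : ℝ) ≤
        ∑ a ∈ good (2 ^ k), (2 * T + 0.3647 * X / L ^ 2 + 2 * X / L ^ 4) := sum_le_sum hclass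
    rw [sum_const, good_card k hk, nsmul_eq_mul] at h3
    push_cast at h3
    linarith
  refine hsum.trans ?_
  have h4 : 30 * T + 7 ≤ 0.001 * X / L ^ 2 := by
    rw [le_div_iff₀ (by positivity)]
    have h5 : (30 * T + 7) * L ^ 2 ≤ 40 * T * L ^ 2 := by
      apply mul_le_mul_of_nonneg_right _ (by positivity)
      linarith
    exact h5.trans hs
  have h5 : 30 * X / L ^ 4 ≤ 0.001 * X / L ^ 2 := by
    rw [div_le_div_iff₀ (by positivity) (by positivity)]
    have h6 : (1000 : ℝ) ^ 2 ≤ L ^ 2 := pow_le_pow_left₀ (by norm_num) hL 2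
    have h8 : (0 : ℝ) ≤ X * L ^ 2 := by positivity
    have h7 : ((X : ℝ) * L ^ 2) * 1000 ^ 2 ≤ ((X : ℝ) * L ^ 2) * L ^ 2 :=
      mul_le_mul_of_nonneg_left h6 h8
    have h9 : 0.001 * (X : ℝ) * L ^ 4 = 0.001 * (((X : ℝ) * L ^ 2) * L ^ 2) := by ring
    have h10 : 30 * (X : ℝ) * L ^ 2 = 30 * ((X : ℝ) * L ^ 2) := by ring
    rw [h9, h10]
    linarith
  have h6 : 15 * (2 * T + 0.3647 * X / L ^ 2 + 2 * X / L ^ 4) =
      30 * T + 5.4705 * X / L ^ 2 + 30 * X / L ^ 4 := by ring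
  rw [h6]
  have h7 : 5.475 * (X : ℝ) / L ^ 2 = 5.4705 * X / L ^ 2 + 4.5 * (0.001 * X / L ^ 2) := by ring
  have h8 : (0 : ℝ) ≤ 0.001 * X / L ^ 2 := by positivity
  rw [h7]
  linarith

end Pool.Agent.Lib.MP_2472ab_nt
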